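import Pool.Agent.V7H48.IP.Induced

/-!
# Paley graphs and tournaments on arbitrary small sets of integers: induced subgraphs

Let `A` be an ARBITRARY set of at least `m ≥ (log Q) ^ 8` integers of absolute value at most `Q ^ K`
and put `q = m ^ δ` (`δ > 0` depends on `K` only). For all odd primes `p ≤ Q` with at most `Q / q`
exceptions the symbols `(a - b | p)` of the differences of elements of `A` behave, in every subset
`A'` of `A` with at least `|A| / q` elements, like a random graph (`p = 1` modulo `4`) or a random
tournament (`p = 3` modulo `4`): for all `k` with `2 ^ k ≤ q` the induced pattern of `k` random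
elements of `A'` is within `1 / q` in total variation of the uniform distribution on all the
`2 ^ (k (k - 1) / 2)` patterns; every pattern on `k` points is induced by some `k` different elements
of `A'`; and as long as `2 ^ (k (k - 1)) ≤ q` every pattern has the expected number of copies, up to
a relative error `q ^ (-1 / 2)`.
-/

set_option autoImplicit false

namespace Pool.Agent.Results.MP_f6e9a2_nt.InducedSubgraphsH48

open Pool.Agent.V7H48.IP

theorem result (K : ℕ) : ∃ δ : ℝ, 0 < δ ∧ ∃ Q₀ : ℕ, ∀ (Q : ℕ) (A : Finset ℤ) (m : ℝ),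
    Q₀ ≤ Q → (∀ a ∈ A, |a| ≤ (Q : ℤ) ^ K) → Real.log Q ^ 8 ≤ m → m ≤ A.card →
      ∃ E : Finset ℕ, (E.card : ℝ) ≤ Q / m ^ δ ∧
        ∀ p : ℕ, p.Prime → p ≠ 2 → p ≤ Q → p ∉ E → GoodInduced p A (m ^ δ) :=
  small_sets_induced K

end Pool.Agent.Results.MP_f6e9a2_nt.InducedSubgraphsH48
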