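import Pool.Agent.V7H48.IP.Asym

/-!
# Legendre symbols `(a + b | p)` for arbitrary small sets of integers: all sign patterns

Let `A`, `B` be ARBITRARY sets of at least `m ≥ (log Q) ^ 8` integers of absolute value at most
`Q ^ K`. For all odd primes `p ≤ Q` with at most `Q / m ^ δ` exceptions (`δ > 0` depends on `K`
only) the matrix of the Legendre symbols `(a + b | p)` behaves like a random matrix of signs, in
every large submatrix: for all `A' ⊆ A` and `B' ⊆ B` with at least `|A| / m ^ δ` and `|B| / m ^ δ`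
elements, and all `k` with `2 ^ k ≤ m ^ δ`, all but `|B'| ^ k / m ^ δ` of the tuples in `B' ^ k` are
such that each of the `2 ^ k` sign patterns `((a + b 1 | p), …, (a + b k | p))` is taken by
`(1 ± m ^ (-δ)) |A'| / 2 ^ k` elements `a` of `A'`; and every `l × k` matrix of signs, `l` up to
`|A'| / 2 ^ (k + 1)`, is a submatrix of the matrix on `A' × B'`.
-/

set_option autoImplicit false

namespace Pool.Agent.Results.MP_f6e9a2_nt.IntegerPatternsH48

open Pool.Agent.V7H48.IP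

theorem result (K : ℕ) : ∃ δ : ℝ, 0 < δ ∧ ∃ Q₀ : ℕ, ∀ (Q : ℕ) (A B : Finset ℤ) (m : ℝ),
    Q₀ ≤ Q → (∀ a ∈ A, |a| ≤ (Q : ℤ) ^ K) → (∀ b ∈ B, |b| ≤ (Q : ℤ) ^ K) →
      Real.log Q ^ 8 ≤ m → m ≤ A.card → m ≤ B.card →
        ∃ E : Finset ℕ, (E.card : ℝ) ≤ Q / m ^ δ ∧
          ∀ p : ℕ, p.Prime → p ≠ 2 → p ≤ Q → p ∉ E → Good p A B (m ^ δ) :=
  small_sets K

end Pool.Agent.Results.MP_f6e9a2_nt.IntegerPatternsH48
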