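import Pool.Agent.V7H48.SP.Asym

/-!
# The Paley graph conjecture: patterns of character values along tuples

Let `χ` be a nontrivial character of order `m`. For a tuple `b = (b 1, …, b k)` of elements of `B`
each `a ∈ A` has a pattern `(χ (a + b 1), …, χ (a + b k))`. If the double sums over all large
sets have a power saving, then for almost all tuples in `B ^ k` all the `m ^ k` patterns of
`m`-th roots of unity are taken by asymptotically the same number `|A| / m ^ k` of elements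
of `A`, as long as `m ^ k ≤ p ^ δ`, so for `k` up to `c log p`. This holds in all the ranges where the conjecture
is known, and for ARBITRARY sets `A`, `B` with `p ^ ε` elements for almost all affine images of `B`.
For the characters with `χ ^ n = 1` (for instance the quadratic character) such equidistribution
is equivalent to the conjecture; for all characters, the conjecture is equivalent to a power
saving in the correlations `∑ a ∈ A, ψ 1 (a + b 1) ⋯ ψ k (a + b k)` of any number `k` of characters along almost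
all tuples in `B ^ k`, uniformly in `k`. A consequence is that all `l × k` matrices of `m`-th
roots of unity are of the form `χ (a i + b j)` with different `a i ∈ A` and different `b j ∈ B`, for
`k ≤ c log p / log m` and `l ≤ |A| / (2 m ^ k)`.
-/

set_option autoImplicit false

namespace Pool.Agent.Results.MP_f6e9a2_nt.SignPatternsH48

open Pool.Agent.N793.PG Pool.Agent.V7H48.SP

/-- the conjecture of the page, word for word -/
def Conjecture : Prop :=
  ∀ ε : ℝ, 0 < ε → ∃ p₀ : ℕ, ∃ δ : ℝ, 0 < δ ∧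
    ∀ p : ℕ, p.Prime → p₀ < p →
      ∀ A B : Finset (ZMod p),
        (p : ℝ) ^ ε < (A.card : ℝ) → (p : ℝ) ^ ε < (B.card : ℝ) →
        ∀ χ : MulChar (ZMod p) ℂ, χ ≠ 1 →
          ‖∑ a ∈ A, ∑ b ∈ B, χ (a + b)‖ ≤ (p : ℝ) ^ (-δ) * (A.card : ℝ) * (B.card : ℝ)

/-- the conjecture of the page for the characters with `χ ^ n = 1` -/
def ConjectureFor (n : ℕ) : Prop :=
  ∀ ε : ℝ, 0 < ε → ∃ p₀ : ℕ, ∃ δ : ℝ, 0 < δ ∧
    ∀ p : ℕ, p.Prime → p₀ < p →
      ∀ A B : Finset (ZMod p),
        (p : ℝ) ^ ε < (A.card : ℝ) → (p : ℝ) ^ ε < (B.card : ℝ) →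
        ∀ χ : MulChar (ZMod p) ℂ, χ ≠ 1 → χ ^ n = 1 →
          ‖∑ a ∈ A, ∑ b ∈ B, χ (a + b)‖ ≤ (p : ℝ) ^ (-δ) * (A.card : ℝ) * (B.card : ℝ)

theorem conjecture_iff_saves : Conjecture ↔
    ∀ ε : ℝ, 0 < ε → ∃ δ : ℝ, 0 < δ ∧ Saves (fun _ _ => True) ε ε δ := by
  constructor
  · intro h ε hε
    obtain ⟨p₀, δ, hδ, H⟩ := h ε hε
    exact ⟨δ, hδ, p₀, fun p hp hlt A B hA hB χ hχ _ => H p hp hlt A B hA hB χ hχ⟩
  · intro h ε hε
    obtain ⟨δ, hδ, p₀, H⟩ := h ε hε
    exact ⟨p₀, δ, hδ, fun p hp hlt A B hA hB χ hχ => H p hp hlt A B hA hB χ hχ trivial⟩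

theorem conjectureFor_iff_saves (n : ℕ) : ConjectureFor n ↔
    ∀ ε : ℝ, 0 < ε → ∃ δ : ℝ, 0 < δ ∧ Saves (fun _ χ => χ ^ n = 1) ε ε δ := by
  constructor
  · intro h ε hε
    obtain ⟨p₀, δ, hδ, H⟩ := h ε hε
    exact ⟨δ, hδ, p₀, H⟩
  · intro h ε hε
    obtain ⟨δ, hδ, p₀, H⟩ := h ε hε
    exact ⟨p₀, δ, hδ, H⟩

theorem powClosed_true : PowClosed (fun _ _ => True) := fun _ _ _ _ _ => trivial

theorem powClosed_order (n : ℕ) : PowClosed (fun _ χ => χ ^ n = 1) := by
  intro p χ j h _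
  rw [← pow_mul, mul_comm, pow_mul, h, one_pow]

theorem result :
    -- (1) every prime: the mean square of the deviation over all tuples and all patterns
    (∀ (p : ℕ) [Fact p.Prime] (χ : MulChar (ZMod p) ℂ), χ ≠ 1 → ∀ (A B : Finset (ZMod p)),
      A.Nonempty → B.Nonempty → ∀ k : ℕ,
        ∑ b ∈ tup B k, ∑ σ ∈ Pat (orderOf χ) k,
          ((cnt (fun a b => χ (a + b)) A b σ : ℝ) -
            nz (fun a b => χ (a + b)) A b / (orderOf χ : ℝ) ^ k) ^ 2 ≤
          (p : ℝ) / (A.card * B.card) * (A.card : ℝ) ^ 2 * (B.card : ℝ) ^ k) ∧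
    -- (2) every prime: almost all tuples are regular
    (∀ (p : ℕ) [Fact p.Prime] (χ : MulChar (ZMod p) ℂ), χ ≠ 1 → ∀ (A B : Finset (ZMod p)),
      A.Nonempty → B.Nonempty → ∀ (k : ℕ) (τ : ℝ), 0 < τ → τ ≤ 1 →
        (Set.ncard {b | b ∈ tup B k ∧ ¬ Reg (fun a b => χ (a + b)) A (orderOf χ) b τ} : ℝ) ≤
          5 * (orderOf χ : ℝ) ^ (2 * k) * ((p : ℝ) / (A.card * B.card)) / τ ^ 2 *
            (B.card : ℝ) ^ k) ∧
    -- (3) bounds for the double sums over all large sets imply equidistribution, for each family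
    -- `F` of characters which is closed under nontrivial powers and each pair of sizes
    (∀ F : ∀ p : ℕ, MulChar (ZMod p) ℂ → Prop, PowClosed F → ∀ α α' δ η : ℝ, 0 ≤ α → 0 < δ →
      0 < η → Bound F α α' δ → EquiSaves F (α + η) (α' + η) (min δ η / 6)) ∧
    -- (4) and bounds for correlations of any number of characters (one of them in `F`), uniformly
    -- in this number
    (∀ (F : ∀ p : ℕ, MulChar (ZMod p) ℂ → Prop) (α α' δ η θ : ℝ), θ < min δ η →
      Bound F α α' δ → CorrSaves F (α + η) (α' + η) θ) ∧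
    -- (5) one large set and one small set
    (∀ ε : ℝ, 0 < ε → ∃ δ : ℝ, 0 < δ ∧
      EquiSaves (fun _ _ => True) (1 / 2 + ε) ε δ ∧ EquiSaves (fun _ _ => True) ε (1 / 2 + ε) δ ∧
      CorrSaves (fun _ _ => True) (1 / 2 + ε) ε δ ∧ CorrSaves (fun _ _ => True) ε (1 / 2 + ε) δ) ∧
    -- (6) arbitrary sets, every nontrivial character of order at most `p ^ c`, almost all affine
    -- images of `B`
    (∀ ε : ℝ, 0 < ε → ∃ c : ℝ, 0 < c ∧ ∃ δ : ℝ, 0 < δ ∧ ∃ p₀ : ℕ,
      ∀ (p : ℕ) [Fact p.Prime], p₀ < p → ∀ χ : MulChar (ZMod p) ℂ, χ ≠ 1 →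
      (orderOf χ : ℝ) ≤ (p : ℝ) ^ c →
      ∀ A B : Finset (ZMod p), (p : ℝ) ^ ε ≤ A.card → (p : ℝ) ^ ε ≤ B.card →
        (({g : ZMod p × ZMod p | g.2 ≠ 0 ∧
          ¬ Equi χ A (B.image fun b => g.1 + g.2 * b) δ}.ncard : ℕ) : ℝ) ≤ (p : ℝ) ^ (1 - c)) ∧
    -- (7) the conjecture of the page is equivalent to the bounds for correlations
    (Conjecture ↔ ∀ ε : ℝ, 0 < ε → ∃ δ : ℝ, 0 < δ ∧ CorrSaves (fun _ _ => True) ε ε δ) ∧
    -- (8) for the characters with `χ ^ n = 1` it is equivalent to the equidistribution of patterns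
    (∀ n : ℕ, 0 < n → (ConjectureFor n ↔
      ∀ ε : ℝ, 0 < ε → ∃ δ : ℝ, 0 < δ ∧ EquiSaves (fun _ χ => χ ^ n = 1) ε ε δ)) ∧
    -- (9) and it implies the equidistribution of patterns for all characters
    (Conjecture → ∀ ε : ℝ, 0 < ε → ∃ δ : ℝ, 0 < δ ∧ EquiSaves (fun _ _ => True) ε ε δ) ∧
    -- (10) every prime: all matrices
    (∀ (p : ℕ) [Fact p.Prime] (χ : MulChar (ZMod p) ℂ), χ ≠ 1 → ∀ (A B : Finset (ZMod p))
      (l k : ℕ), 40 * (orderOf χ : ℝ) ^ (2 * k) * p ≤ A.card * B.card →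
        2 * l * orderOf χ ^ k ≤ A.card → AllMatrices χ A B l k) ∧
    -- (11) equidistribution implies that all matrices with `c log p / log m` columns occur
    (∀ (F : ∀ p : ℕ, MulChar (ZMod p) ℂ → Prop) (α α' δ : ℝ), 0 < δ → 0 < α' →
      EquiSaves F α α' δ → ∃ p₀ : ℕ, ∀ (p : ℕ) [Fact p.Prime], p₀ < p → ∀ A B : Finset (ZMod p),
        (p : ℝ) ^ α < (A.card : ℝ) → (p : ℝ) ^ α' < (B.card : ℝ) →
          ∀ χ : MulChar (ZMod p) ℂ, χ ≠ 1 → F p χ → ∀ k l : ℕ,
            (orderOf χ : ℝ) ^ k ≤ (p : ℝ) ^ (min δ (α' / 3)) →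
              2 * l * orderOf χ ^ k ≤ A.card → AllMatrices χ A B l k) := by
  have hhalf : ∀ {F : ∀ p : ℕ, MulChar (ZMod p) ℂ → Prop}, PowClosed F → ∀ ε : ℝ, 0 < ε →
      (∃ δ : ℝ, 0 < δ ∧ Saves F (ε / 2) (ε / 2) δ) → ∃ δ : ℝ, 0 < δ ∧ EquiSaves F ε ε δ := by
    rintro F hF ε hε ⟨δ, hδ, h⟩
    refine ⟨min δ (ε / 2) / 6, by positivity, ?_⟩
    have h1 := equi_of_saves (η := ε / 2) hF (by linarith) hδ (by linarith) h
    rw [add_halves] at h1
    exact h1
  refine ⟨?_, ?_, ?_, ?_, ?_, few_images, ?_, ?_, ?_, ?_, ?_⟩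
  · intro p _ χ hχ A B hA hB k
    have hm := two_le_order χ hχ
    refine second (fun a b => χ (a + b)) A B (by omega) (fun a b => root_value χ (a + b)) _
      (by positivity) ?_ k
    intro j hj v hv
    have h1 := second_w (χ ^ j) (pow_ne χ hj) A B hA hB v hv
    have h2 : j ≠ 0 := by have := (Finset.mem_Ico.1 hj).1; omega
    simp only [MulChar.pow_apply' χ h2] at h1
    exact h1
  · exact fun p _ χ hχ A B hA hB k τ h1 h2 => classical_irr χ hχ A B hA hB k τ h1 h2
  · exact fun F hF α α' δ η h1 h2 h3 h => equi_of_saves hF h1 h2 h3 h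
  · exact fun F α α' δ η θ h1 h => corr_of_saves h h1
  · intro ε hε
    obtain ⟨δ, hδ, h⟩ := Pool.Agent.V7H48.VC.karatsuba (ε / 2) (by linarith)
    have hmin : 0 < min δ (ε / 2) := lt_min hδ (by linarith)
    have hsw := Pool.Agent.V7H48.VC.Saves.swap h
    have e1 : (1 : ℝ) / 2 + ε / 2 + ε / 2 = 1 / 2 + ε := by ring
    refine ⟨min δ (ε / 2) / 6, by positivity, ?_, ?_, ?_, ?_⟩
    · have h1 := equi_of_saves (η := ε / 2) powClosed_true (by linarith) hδ (by linarith) h
      rw [e1, add_halves] at h1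
      exact h1
    · have h1 := equi_of_saves (η := ε / 2) powClosed_true (by linarith) hδ (by linarith) hsw
      rw [e1, add_halves] at h1
      exact h1
    · have h1 := corr_of_saves (η := ε / 2) (θ := min δ (ε / 2) / 6) h (by linarith)
      rw [e1, add_halves] at h1
      exact h1
    · have h1 := corr_of_saves (η := ε / 2) (θ := min δ (ε / 2) / 6) hsw (by linarith)
      rw [e1, add_halves] at h1
      exact h1
  · rw [conjecture_iff_saves]
    constructor
    · intro h ε hε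
      obtain ⟨δ, hδ, H⟩ := h (ε / 2) (by linarith)
      have hmin : 0 < min δ (ε / 2) := lt_min hδ (by linarith)
      refine ⟨min δ (ε / 2) / 2, by positivity, ?_⟩
      have h1 := corr_of_saves (η := ε / 2) (θ := min δ (ε / 2) / 2) H (by linarith)
      rw [add_halves] at h1
      exact h1
    · intro h ε hε
      obtain ⟨δ, hδ, H⟩ := h ε hε
      exact ⟨δ / 2, by linarith, H.saves⟩
  · intro n hn
    rw [conjectureFor_iff_saves]
    constructor
    · exact fun h ε hε => hhalf (powClosed_order n) ε hε (h (ε / 2) (by linarith))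
    · intro h ε hε
      obtain ⟨δ, hδ, H⟩ := h ε hε
      exact ⟨δ / 2, by linarith, saves_of_equi hn hδ (by linarith) H⟩
  · intro h ε hε
    exact hhalf powClosed_true ε hε (conjecture_iff_saves.1 h (ε / 2) (by linarith))
  · exact fun p _ χ hχ A B l k h1 h2 => classical_matrices χ hχ A B l k h1 h2
  · exact fun F α α' δ h1 h2 h => h.matrices h1 h2

end Pool.Agent.Results.MP_f6e9a2_nt.SignPatternsH48
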