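import Pool.Agent.V7H48.VC.Main

/-!
# The Paley graph conjecture: a maximal inequality over families of bounded VC dimension

In the sums `∑ a ∈ A, |∑ b ∈ B, χ (a + b)|` the set `B` may be replaced, for each `a`, by a part
`B ∩ J a` chosen adversarially from a family of sets of Vapnik-Chervonenkis dimension `d`, for
example by an initial segment of `B` for any linear order (`d = 1`), an interval (`d = 2`), a cell of
a semialgebraic partition, or the neighbours of `a` in any graph whose neighbourhoods have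
dimension `d`. A saving `η` for the double sums over all large sets becomes a saving
`16 η ^ (1 / (2 d + 2))`, with the same absolute constant for all families and all `d`. So such
inequalities hold in all ranges where the conjecture is known, for ARBITRARY sets `A`, `B` with
`p ^ ε` elements and almost all characters or almost all affine images, and the conjecture is
equivalent to all of them. The dependence on `d` cannot be improved by more than a constant in the
exponent, because the quadratic residues cut out all subsets of some set `T ⊆ B` with `c log p`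
elements, already by the shifts `a ∈ A`.

Proof: a simple packing lemma (random tuples and the Sauer-Shelah lemma) gives a net of at most
`(16/9) (4/γ) ^ (2 d)` members for the symmetric difference; over the net one uses second moments.
For the last part the maximal inequality is applied to `J a = {b | χ (a + b) = 1}`.
-/

set_option autoImplicit false

namespace Pool.Agent.Results.MP_f6e9a2_nt.VCMaximalH48

open Pool.Agent.N793.PG Pool.Agent.V7H48.VC

/-- the conjecture of the page, word for word -/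
def Conjecture : Prop :=
  ∀ ε : ℝ, 0 < ε → ∃ p₀ : ℕ, ∃ δ : ℝ, 0 < δ ∧
    ∀ p : ℕ, p.Prime → p₀ < p →
      ∀ A B : Finset (ZMod p),
        (p : ℝ) ^ ε < (A.card : ℝ) → (p : ℝ) ^ ε < (B.card : ℝ) →
        ∀ χ : MulChar (ZMod p) ℂ, χ ≠ 1 →
          ‖∑ a ∈ A, ∑ b ∈ B, χ (a + b)‖ ≤ (p : ℝ) ^ (-δ) * (A.card : ℝ) * (B.card : ℝ)

/-- `χ` has the values `0, 1, -1` only -/
def Quad {p : ℕ} (χ : MulChar (ZMod p) ℂ) : Prop := ∀ t, χ t = 0 ∨ χ t = 1 ∨ χ t = -1

/-- For all large primes, all sets `A`, `B` with more than `p ^ α`, `p ^ α'` elements and the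
quadratic character: all subsets of some `T ⊆ B` with at least `c log p` elements are cut out of `T`
by the nonzero squares shifted by elements of `A`. -/
def LogCuts (α α' c : ℝ) : Prop :=
  ∃ p₀ : ℕ, ∀ p : ℕ, p.Prime → p₀ < p → ∀ A B : Finset (ZMod p),
    (p : ℝ) ^ α < (A.card : ℝ) → (p : ℝ) ^ α' < (B.card : ℝ) →
      ∀ χ : MulChar (ZMod p) ℂ, χ ≠ 1 → Quad χ →
        ∃ T ⊆ B, c * Real.log p ≤ T.card ∧ Cuts χ A T

theorem conjecture_iff_saves : Conjecture ↔
    ∀ ε : ℝ, 0 < ε → ∃ δ : ℝ, 0 < δ ∧ Saves (fun _ _ => True) ε ε δ := by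
  constructor
  · intro h ε hε
    obtain ⟨p₀, δ, hδ, H⟩ := h ε hε
    exact ⟨δ, hδ, p₀, fun p hp hlt A B hA hB χ hχ _ => H p hp hlt A B hA hB χ hχ⟩
  · intro h ε hε
    obtain ⟨δ, hδ, p₀, H⟩ := h ε hε
    exact ⟨p₀, δ, hδ, fun p hp hlt A B hA hB χ hχ => H p hp hlt A B hA hB χ hχ trivial⟩

theorem result :
    -- (1) every prime, every nontrivial character, explicit constants
    (∀ (p : ℕ) [Fact p.Prime] (χ : MulChar (ZMod p) ℂ), χ ≠ 1 → ∀ (A B : Finset (ZMod p)) (d : ℕ)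
      (J : ZMod p → Finset (ZMod p)), VCle A B J d →
        ∑ a ∈ A, ‖∑ b ∈ B ∩ J a, χ (a + b)‖ ≤
          8 * ((p : ℝ) / (A.card * B.card)) ^ ((1 : ℝ) / (2 * (d + 1))) * A.card * B.card) ∧
    -- (2) a bound for the double sums over all large sets implies the maximal inequality, for every
    -- family `F` of characters and every pair of sizes
    (∀ (F : ∀ p : ℕ, MulChar (ZMod p) ℂ → Prop) (α α' δ η : ℝ), Saves F α α' δ →
      MaxSaves F (α + η) (α' + η) (min δ η / 2)) ∧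
    -- (3) one large set and one small set
    (∀ ε : ℝ, 0 < ε → ∃ δ : ℝ, 0 < δ ∧ MaxSaves (fun _ _ => True) (1 / 2 + ε) ε δ ∧
      MaxSaves (fun _ _ => True) ε (1 / 2 + ε) δ) ∧
    -- (4) arbitrary sets, almost all characters
    (∀ ε : ℝ, 0 < ε → ∃ c : ℝ, 0 < c ∧ ∃ δ : ℝ, 0 < δ ∧ ∃ p₀ : ℕ,
      ∀ (p : ℕ) [Fact p.Prime], p₀ ≤ p → ∀ A B : Finset (ZMod p),
      (p : ℝ) ^ ε ≤ A.card → (p : ℝ) ^ ε ≤ B.card →
      (({χ : MulChar (ZMod p) ℂ | χ ≠ 1 ∧ ¬ MaxBound χ A B ((p : ℝ) ^ (-δ))}.ncard : ℕ) : ℝ) ≤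
        (p : ℝ) ^ (1 - c) / max (A.card : ℝ) B.card) ∧
    -- (5) arbitrary sets, every nontrivial character, almost all affine images of `B`
    (∀ ε : ℝ, 0 < ε → ∃ c : ℝ, 0 < c ∧ ∃ δ : ℝ, 0 < δ ∧ ∃ p₀ : ℕ,
      ∀ (p : ℕ) [Fact p.Prime], p₀ ≤ p → ∀ χ : MulChar (ZMod p) ℂ, χ ≠ 1 →
      ∀ A B : Finset (ZMod p), (p : ℝ) ^ ε ≤ A.card → (p : ℝ) ^ ε ≤ B.card →
        (({g : ZMod p × ZMod p | g.2 ≠ 0 ∧
          ¬ MaxBound χ A (B.image fun b => g.1 + g.2 * b) ((p : ℝ) ^ (-δ))}.ncard : ℕ) : ℝ) ≤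
          (p : ℝ) ^ (1 - c)) ∧
    -- (6) the conjecture of the page is equivalent to the maximal inequalities
    (Conjecture ↔ ∀ ε : ℝ, 0 < ε → ∃ δ : ℝ, 0 < δ ∧ MaxSaves (fun _ _ => True) ε ε δ) ∧
    -- (7) the maximal inequality with saving `η` implies shattered sets with `log (1/η) / 4` elements
    (∀ (p : ℕ) [Fact p.Prime] (χ : MulChar (ZMod p) ℂ), Quad χ → ∀ (A B : Finset (ZMod p)) (η : ℝ)
      (k : ℕ), MaxBound χ A B η → A.Nonempty → 10 ≤ B.card → 1 ≤ k → 0 < η →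
        η ≤ Real.exp (-(4 * k)) → ∃ T ⊆ B, T.card = k ∧ Cuts χ A T) ∧
    -- (8) every prime and the quadratic character: shattered sets in the classical range, explicit
    (∀ (p : ℕ) [Fact p.Prime] (χ : MulChar (ZMod p) ℂ), χ ≠ 1 → Quad χ →
      ∀ (A B : Finset (ZMod p)) (k : ℕ), 10 ≤ B.card → 1 ≤ k →
        Real.exp (8 * k) * p ≤ A.card * B.card → ∃ T ⊆ B, T.card = k ∧ Cuts χ A T) ∧
    -- (9) shattered sets with `c log p` elements for one large and one small set
    (∀ ε : ℝ, 0 < ε → ∃ c : ℝ, 0 < c ∧ LogCuts (1 / 2 + ε) ε c ∧ LogCuts ε (1 / 2 + ε) c) ∧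
    -- (10) and for arbitrary sets with more than `p ^ ε` elements, under the conjecture of the page
    (Conjecture → ∀ ε : ℝ, 0 < ε → ∃ c : ℝ, 0 < c ∧ LogCuts ε ε c) := by
  have hsub : ∀ {α α' δ : ℝ}, MaxSaves (fun _ _ => True) α α' δ →
      MaxSaves (fun _ χ => ∀ t, χ t = 0 ∨ χ t = 1 ∨ χ t = -1) α α' δ := by
    rintro α α' δ ⟨p₀, h⟩
    exact ⟨p₀, fun p hp hlt A B hA hB χ hχ _ => h p hp hlt A B hA hB χ hχ trivial⟩
  have h3 : ∀ ε : ℝ, 0 < ε → ∃ δ : ℝ, 0 < δ ∧ MaxSaves (fun _ _ => True) (1 / 2 + ε) ε δ ∧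
      MaxSaves (fun _ _ => True) ε (1 / 2 + ε) δ := by
    intro ε hε
    obtain ⟨δ, hδ, h⟩ := karatsuba (ε / 2) (by linarith)
    refine ⟨min δ (ε / 2) / 2, by positivity, ?_, ?_⟩
    · have h1 := transfer (η := ε / 2) h
      rw [show (1 : ℝ) / 2 + ε / 2 + ε / 2 = 1 / 2 + ε by ring, add_halves] at h1
      exact h1
    · have h1 := transfer (η := ε / 2) (Saves.swap h)
      rw [show (1 : ℝ) / 2 + ε / 2 + ε / 2 = 1 / 2 + ε by ring, add_halves] at h1
      exact h1
  have h6 : Conjecture ↔ ∀ ε : ℝ, 0 < ε → ∃ δ : ℝ, 0 < δ ∧ MaxSaves (fun _ _ => True) ε ε δ := by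
    rw [conjecture_iff_saves]
    constructor
    · intro h ε hε
      obtain ⟨δ, hδ, H⟩ := h (ε / 2) (by linarith)
      refine ⟨min δ (ε / 2) / 2, by positivity, ?_⟩
      have h1 := transfer (η := ε / 2) H
      rw [add_halves] at h1
      exact h1
    · intro h ε hε
      obtain ⟨δ, hδ, H⟩ := h ε hε
      exact ⟨δ / 2, by linarith, H.saves (by linarith)⟩
  refine ⟨?_, ?_, h3, ?_, ?_, h6, ?_, ?_, ?_, ?_⟩
  · intro p _ χ hχ A B d J hJ
    exact classical_max χ hχ A B d J hJ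
  · intro F α α' δ η h
    exact transfer h
  · exact fun ε hε => few_characters ε hε
  · exact fun ε hε => few_images ε hε
  · intro p _ χ hq A B η k h hA hB hk hη hkη
    exact h.cuts χ hq hη hA hB k hk hkη
  · intro p _ χ hχ hq A B k hB hk hAB
    exact classical_cuts χ hχ hq A B hB k hk hAB
  · intro ε hε
    obtain ⟨δ, hδ, h1, h2⟩ := h3 ε hε
    exact ⟨δ / 8, by linarith, (hsub h1).log hε hδ, (hsub h2).log (by linarith) hδ⟩
  · intro hC ε hε
    obtain ⟨δ, hδ, h⟩ := h6.1 hC ε hε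
    exact ⟨δ / 8, by linarith, (hsub h).log hε hδ⟩

end Pool.Agent.Results.MP_f6e9a2_nt.VCMaximalH48
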